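import Pool.Agent.W516.CMF.Defs

/-!
# The idempotent of a real place (task CMF-EPS)
-/

namespace Pool.Agent.W67.CMF

open Module TensorProduct Pool.Agent.W516.CMF

theorem T_EPS : S_EPS := by
  intro k F _ _ _ _ _ _ σ
  haveI : Algebra.FormallyUnramified k F := Algebra.FormallyUnramified.of_isSeparable k F
  set E : F ⊗[k] F := Algebra.FormallyUnramified.elem k F with hE
  set φ : F ⊗[k] F →ₐ[k] ℝ ⊗[k] F := Algebra.TensorProduct.map σ (AlgHom.id k F) with hφ
  set ε : ℝ ⊗[k] F := φ E with hε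
  -- the place
  set μ : ℝ ⊗[k] F →ₐ[k] ℝ := Algebra.TensorProduct.productMap (AlgHom.id k ℝ) σ with hμ
  have hμφ : ∀ z : F ⊗[k] F, μ (φ z) = σ (Algebra.TensorProduct.lmul' k z) := by
    intro z
    induction z using TensorProduct.induction_on with
    | zero => simp
    | tmul a b => simp [hμ, hφ]
    | add x y hx hy => rw [map_add, map_add, hx, hy, map_add, map_add]
  have hμε : μ ε = 1 := by
    rw [hε, hμφ, hE, Algebra.FormallyUnramified.lmul_elem, map_one]
  have hcomm : ∀ a : F, ((1 : ℝ) ⊗ₜ[k] a) * ε = ((σ a) ⊗ₜ[k] (1 : F)) * ε := by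
    intro a
    have h1 := congrArg φ (Algebra.FormallyUnramified.one_tmul_mul_elem (R := k) a)
    rw [map_mul, map_mul] at h1
    have h2 : φ ((1 : F) ⊗ₜ[k] a) = (1 : ℝ) ⊗ₜ[k] a := by simp [hφ]
    have h3 : φ (a ⊗ₜ[k] (1 : F)) = (σ a) ⊗ₜ[k] (1 : F) := by simp [hφ]
    rw [h2, h3] at h1
    exact h1
  have hz : ∀ z : ℝ ⊗[k] F, z * ε = ((μ z) ⊗ₜ[k] (1 : F)) * ε := by
    intro z
    induction z using TensorProduct.induction_on with
    | zero => simp
    | tmul s a =>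
      have h1 : (s ⊗ₜ[k] a : ℝ ⊗[k] F) = (s ⊗ₜ[k] (1 : F)) * ((1 : ℝ) ⊗ₜ[k] a) := by
        rw [Algebra.TensorProduct.tmul_mul_tmul, mul_one, one_mul]
      rw [h1, mul_assoc, hcomm, ← mul_assoc, Algebra.TensorProduct.tmul_mul_tmul, mul_one, map_mul]
      simp [hμ]
    | add x y hx hy => rw [add_mul, hx, hy, map_add, TensorProduct.add_tmul, add_mul]
  refine ⟨ε, ?_, ?_, hcomm⟩
  · intro h0
    rw [h0, map_zero] at hμε
    exact zero_ne_one hμε
  · rw [hz ε, hμε]
    exact one_mul ε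

end Pool.Agent.W67.CMF
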