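import Pool.Agent.W516.CMF.Defs
import Pool.Agent.W32.KU.UE

/-!
# An ideal of the special unitary Lie algebra containing `xx e f` is everything (task CMF-IDL)
-/

set_option autoImplicit false

namespace Pool.Agent.W67.CMF

open Module Pool.Agent.W516.K3 Pool.Agent.W516.KU Pool.Agent.W32.KU

section

variable {T : Type} [AddCommGroup T] [Module ℝ T] {b : T →ₗ[ℝ] T →ₗ[ℝ] ℝ} {J : Module.End ℝ T}

theorem xx_skew (h : Herm b J) (u v x y : T) : b (xx b J u v x) y + b x (xx b J u v y) = 0 := by
  rw [xx_apply, xx_apply]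
  simp only [map_add, map_sub, map_smul, LinearMap.add_apply, LinearMap.sub_apply,
    LinearMap.smul_apply, smul_eq_mul]
  rw [h.symm x u, h.symm x v, h.symm x (J u), h.symm x (J v)]
  ring

theorem xx_commJ (h : Herm b J) (u v : T) : xx b J u v * J = J * xx b J u v := by
  ext t
  rw [Module.End.mul_apply, Module.End.mul_apply, xx_apply, xx_apply]
  have h1 : b v (J t) = -b (J v) t := by rw [bJ h]; ring
  have h2 : b u (J t) = -b (J u) t := by rw [bJ h]; ring
  rw [h1, h2, h.isom, h.isom]
  simp only [map_add, map_sub, map_smul, JJ h, smul_neg, neg_smul]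
  abel

variable [FiniteDimensional ℝ T] {g : Submodule ℝ (Module.End ℝ T)} {e f : T}

theorem all_mem' (h : Herm b J) (hbr : ∀ x ∈ g, ∀ y ∈ g, x * y - y * x ∈ g)
    (hp : HypJ b J e f) (hh : xx b J e f ∈ g)
    (hE : xx b J e (J e) ∈ g) (hF : xx b J f (J f) ∈ g)
    (hT : ∀ t ∈ T0 b J e f, xx b J e t ∈ g ∧ xx b J f t ∈ g) (u v : T) :
    xx b J u v ∈ SS b J g e f := by
  have hfJe : b f (J e) = 0 := by rw [h.symm, bJ h, hp.eJf, neg_zero]
  -- the elements of g0
  have g_ef : xx b J e f ∈ g0 J g := ⟨hh, by rw [tr_xx h, hfJe, mul_zero]⟩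
  have g_E : xx b J e (J e) ∈ g0 J g := ⟨hE, by rw [tr_xx h, h.isom, hp.ee, mul_zero]⟩
  have g_F : xx b J f (J f) ∈ g0 J g := ⟨hF, by rw [tr_xx h, h.isom, hp.ff, mul_zero]⟩
  have g_et : ∀ t ∈ T0 b J e f, xx b J e t ∈ g0 J g := by
    intro t ht
    refine ⟨(hT t ht).1, ?_⟩
    rw [mem_T0] at ht
    rw [tr_xx h, h.symm, ht.1.2, mul_zero]
  have g_ft : ∀ t ∈ T0 b J e f, xx b J f t ∈ g0 J g := by
    intro t ht
    refine ⟨(hT t ht).2, ?_⟩
    rw [mem_T0] at ht
    rw [tr_xx h, h.symm, ht.2, mul_zero]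
  have g_ts : ∀ t ∈ T0 b J e f, ∀ s ∈ T0 b J e f, xx b J t s ∈ SS b J g e f := by
    intro t ht s hs
    obtain ⟨a1, a2⟩ := hT t ht
    obtain ⟨c1, c2⟩ := hT s hs
    have hbr : xx b J e t * xx b J f s - xx b J f s * xx b J e t ∈ g0 J g := by
      refine ⟨hbr _ a1 _ c2, ?_⟩
      have hc := xx_commJ h e t
      have t1 : LinearMap.trace ℝ T (xx b J e t * xx b J f s * J) =
          LinearMap.trace ℝ T (xx b J f s * (J * xx b J e t)) := by
        rw [mul_assoc, LinearMap.trace_mul_comm, mul_assoc]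
      rw [sub_mul, map_sub, t1, ← hc, mul_assoc (xx b J f s), sub_self]
    rw [xx_comm (xx_skew h e t) (xx_commJ h e t)] at hbr
    have ht' := mem_T0.1 ht
    have hs' := mem_T0.1 hs
    have htf : b t f = 0 := by rw [h.symm]; exact ht'.1.1.2
    have hJtf : b (J t) f = 0 := by
      have := mem_T0.1 (J_T0 h ht)
      rw [h.symm]
      exact this.1.1.2
    have e1 : xx b J e t f = -t := by
      rw [xx_apply, htf, hp.ef, hJtf, h.symm (J e) f, hfJe]
      simp
    have e2 : xx b J e t s = b t s • e + b (J t) s • J e := by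
      rw [xx_apply, hs'.1.1.1, hs'.1.2]
      simp
    rw [e1, e2, xx_add_right, xx_smul_right, xx_smul_right] at hbr
    have e3 : xx b J (-t) s = -xx b J t s := by
      have := xx_smul_left (b := b) (J := J) (-1) t s
      rw [neg_one_smul, neg_one_smul] at this
      exact this
    rw [e3] at hbr
    have e4 : xx b J t s = -(-xx b J t s + (b t s • xx b J f e + b (J t) s • xx b J f (J e))) +
        (b t s • xx b J f e + b (J t) s • xx b J f (J e)) := by abel
    rw [e4]
    refine Submodule.add_mem _ (Submodule.neg_mem _ (g0_mem hbr)) (Submodule.add_mem _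
      (Submodule.smul_mem _ _ ?_) (Submodule.smul_mem _ _ R_mem))
    rw [xx_anti]
    exact Submodule.neg_mem _ (g0_mem g_ef)
  -- the first argument
  have key_e : ∀ v, xx b J e v ∈ SS b J g e f := by
    refine test h hp ?_ (g0_mem g_E) (g0_mem g_ef) ?_ (fun t ht => g0_mem (g_et t ht))
    · rw [xx_self]; exact Submodule.zero_mem _
    · have e1 : xx b J e (J f) = xx b J f (J e) := by
        have h1 := xx_J h e f
        rw [xx_anti (J e) f] at h1
        exact (neg_injective h1).symm
      rw [e1]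
      exact R_mem
  have key_f : ∀ v, xx b J f v ∈ SS b J g e f := by
    refine test h hp ?_ R_mem ?_ (g0_mem g_F) (fun t ht => g0_mem (g_ft t ht))
    · rw [xx_anti]; exact Submodule.neg_mem _ (g0_mem g_ef)
    · rw [xx_self]; exact Submodule.zero_mem _
  have key_t : ∀ t ∈ T0 b J e f, ∀ v, xx b J t v ∈ SS b J g e f := by
    intro t ht
    refine test h hp ?_ ?_ ?_ ?_ (g_ts t ht)
    · rw [xx_anti]; exact Submodule.neg_mem _ (key_e _)
    · rw [xx_anti, xx_J h, neg_neg]; exact key_e _
    · rw [xx_anti]; exact Submodule.neg_mem _ (key_f _)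
    · rw [xx_anti, xx_J h, neg_neg]; exact key_f _
  have key_J : ∀ p, (∀ v, xx b J p v ∈ SS b J g e f) → ∀ v, xx b J (J p) v ∈ SS b J g e f := by
    intro p h1 v
    rw [xx_J h]
    exact Submodule.neg_mem _ (h1 _)
  obtain ⟨α, β, γ, δ, t, ht, rfl⟩ := dec h hp u
  rw [xx_add_left, xx_add_left, xx_add_left, xx_add_left, xx_smul_left, xx_smul_left,
    xx_smul_left, xx_smul_left]
  exact Submodule.add_mem _ (Submodule.add_mem _ (Submodule.add_mem _ (Submodule.add_mem _
    (Submodule.smul_mem _ _ (key_e v)) (Submodule.smul_mem _ _ (key_J e key_e v)))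
    (Submodule.smul_mem _ _ (key_f v))) (Submodule.smul_mem _ _ (key_J f key_f v))) (key_t t ht v)

end

theorem T_IDL : Pool.Agent.W516.CMF.S_IDL := by
  intro T _ _ _ b J g g₁ h hbr hid hfull e f hp hh x hx hxJ hxt
  have hfJe : b f (J e) = 0 := by rw [h.symm, bJ h, hp.eJf, neg_zero]
  have hfe : b f e = 1 := by rw [h.symm]; exact hp.ef
  have hJfe : b (J f) e = 0 := by rw [h.symm]; exact hp.eJf
  have hJee : b (J e) e = 0 := by rw [h.symm]; exact bJself h e
  have hJff : b (J f) f = 0 := by rw [h.symm]; exact bJself h f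
  have hJef : b (J e) f = 0 := by rw [h.symm]; exact hfJe
  -- the action of the hyperbolic element
  have he : xx b J e f e = e := by
    rw [xx_apply, hfe, hp.ee, hJfe, hJee]; simp
  have hf : xx b J e f f = -f := by
    rw [xx_apply, hp.ff, hp.ef, hJff, hJef]; simp
  have hJe : xx b J e f (J e) = J e := by
    have := LinearMap.congr_fun (xx_commJ h e f) e
    rw [Module.End.mul_apply, Module.End.mul_apply, he] at this
    exact this
  have hJf : xx b J e f (J f) = -J f := by
    have := LinearMap.congr_fun (xx_commJ h e f) f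
    rw [Module.End.mul_apply, Module.End.mul_apply, hf, map_neg] at this
    exact this
  have ht0 : ∀ t ∈ T0 b J e f, xx b J e f t = 0 := by
    intro t ht
    obtain ⟨⟨⟨h1, h2⟩, h3⟩, h4⟩ := mem_T0.1 ht
    rw [xx_apply, h1, h2, h3, h4]; simp
  have hxx : ∀ u v, LinearMap.trace ℝ T (xx b J u v * J) = 0 → xx b J u v ∈ g := fun u v hu =>
    hfull _ (xx_skew h u v) (xx_commJ h u v) hu
  have hcomm : ∀ u v, LinearMap.trace ℝ T (xx b J u v * J) = 0 →
      xx b J (xx b J e f u) v + xx b J u (xx b J e f v) ∈ g₁ := by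
    intro u v hu
    have h1 := hid _ hh _ (hxx u v hu)
    rw [xx_comm (xx_skew h e f) (xx_commJ h e f)] at h1
    exact h1
  have hneg : ∀ u v : T, xx b J (-u) v = -xx b J u v := by
    intro u v
    have := xx_smul_left (b := b) (J := J) (-1) u v
    rw [neg_one_smul, neg_one_smul] at this
    exact this
  have hneg' : ∀ u v : T, xx b J u (-v) = -xx b J u v := by
    intro u v
    have := xx_smul_right (b := b) (J := J) (-1) u v
    rw [neg_one_smul, neg_one_smul] at this
    exact this
  have hz : ∀ u : T, xx b J u 0 = 0 := by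
    intro u
    have := xx_smul_right (b := b) (J := J) 0 u 0
    rw [zero_smul, zero_smul] at this
    exact this
  have hE : xx b J e (J e) ∈ g₁ := by
    have h1 := hcomm e (J e) (by rw [tr_xx h, h.isom, hp.ee, mul_zero])
    rw [he, hJe, ← two_smul ℝ] at h1
    have h2 := g₁.smul_mem (2⁻¹ : ℝ) h1
    rw [smul_smul, inv_mul_cancel₀ (by norm_num), one_smul] at h2
    exact h2
  have hF : xx b J f (J f) ∈ g₁ := by
    have h1 := hcomm f (J f) (by rw [tr_xx h, h.isom, hp.ff, mul_zero])
    rw [hf, hJf, hneg, hneg', ← neg_add, ← two_smul ℝ] at h1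
    have h2 := g₁.smul_mem (-2⁻¹ : ℝ) h1
    rw [smul_neg, neg_smul, neg_neg, smul_smul, inv_mul_cancel₀ (by norm_num), one_smul] at h2
    exact h2
  have hT : ∀ t ∈ T0 b J e f, xx b J e t ∈ g₁ ∧ xx b J f t ∈ g₁ := by
    intro t ht
    obtain ⟨⟨⟨h1, h2⟩, h3⟩, h4⟩ := mem_T0.1 ht
    have a1 := hcomm e t (by rw [tr_xx h, h.symm, h3, mul_zero])
    have a2 := hcomm f t (by rw [tr_xx h, h.symm, h4, mul_zero])
    rw [he, ht0 t ht, hz, add_zero] at a1
    rw [hf, ht0 t ht, hz, add_zero, hneg] at a2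
    refine ⟨a1, ?_⟩
    have a3 := g₁.neg_mem a2
    rwa [neg_neg] at a3
  have hall := all_mem' h hbr hp hh hE hF hT
  have hspan := Pool.Agent.W440.DK.T_SPAN ℝ T b h.symm h.nondeg x hx
  have h1 : ∀ y ∈ Submodule.span ℝ {y | ∃ u v, y = wdg b u v}, y - J * y * J ∈ SS b J g₁ e f := by
    intro y hy
    induction hy using Submodule.span_induction with
    | mem y hy =>
      obtain ⟨u, v, rfl⟩ := hy
      have e1 : wdg b u v - J * wdg b u v * J = xx b J u v := by
        ext t
        rw [LinearMap.sub_apply, Module.End.mul_apply, Module.End.mul_apply, xx_apply, wdg_apply,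
          wdg_apply, map_sub, map_smul, map_smul, bJ h v t, bJ h u t]
        simp only [neg_smul]
        abel
      rw [e1]
      exact hall u v
    | zero => rw [mul_zero, zero_mul, sub_zero]; exact Submodule.zero_mem _
    | add y z _ _ h1 h2 =>
      have e1 : y + z - J * (y + z) * J = (y - J * y * J) + (z - J * z * J) := by
        rw [mul_add, add_mul]; abel
      rw [e1]
      exact Submodule.add_mem _ h1 h2
    | smul c y _ h1 =>
      have e1 : c • y - J * (c • y) * J = c • (y - J * y * J) := by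
        rw [mul_smul_comm, smul_mul_assoc, smul_sub]
      rw [e1]
      exact Submodule.smul_mem _ _ h1
  have h2 := h1 x hspan
  have h3 : x - J * x * J = (2 : ℝ) • x := by
    rw [← hxJ, mul_assoc, h.sq, mul_neg_one, sub_neg_eq_add, two_smul]
  rw [h3] at h2
  have h4 : x ∈ SS b J g₁ e f := by
    have := Submodule.smul_mem _ (2⁻¹ : ℝ) h2
    rw [smul_smul, inv_mul_cancel₀ (by norm_num), one_smul] at this
    exact this
  rw [SS, Submodule.mem_sup] at h4
  obtain ⟨a, ha, r, hr, rfl⟩ := h4
  obtain ⟨c, rfl⟩ := Submodule.mem_span_singleton.1 hr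
  rw [add_mul, map_add, ha.2, zero_add, smul_mul_assoc, map_smul, tr_xx h, h.isom, hp.ef,
    smul_eq_mul] at hxt
  have hc : c = 0 := by linarith
  rw [hc, zero_smul, add_zero]
  exact ha.1

end Pool.Agent.W67.CMF
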